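import Pool.Agent.Lib.MP_b384de_nt.Sixteen

/-!
# Divisibility by p of the maximal divisor height B(p q^b)

For primes `p < q` and every `b ≥ 1`, the maximum `B (p * q ^ b)` of the heights of the divisors
of `X ^ (p * q ^ b) - 1` in `ℤ[X]` is divisible by `p`.

Proof idea.  Every divisor is, up to sign, `u * expand q g` with `u` a product of some of the
cyclotomic polynomials of index `1, p, q, p q`, and `g` a product of cyclotomic polynomials.  In
each residue class of exponents mod `q` the coefficients of `u` have absolute sum at most `p`, so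
the height is at most `p * height g`, and `u = Φ_p Φ_q` attains this.  So `B` is `p` times the
largest height of such a `g`.
-/

namespace Pool.Agent.Results.MP_b384de_nt.Full

open Polynomial Finset

/-- The height `H(f)` of an integer polynomial: the largest absolute value of a coefficient. -/
def height (f : ℤ[X]) : ℕ := f.support.sup (fun i => (f.coeff i).natAbs)

/-- The set of heights of the divisors of `X ^ n - 1` in `ℤ[X]`. -/
def divisorHeights (n : ℕ) : Set ℕ := {h | ∃ f : ℤ[X], f ∣ X ^ n - 1 ∧ height f = h}

/-- `B(n)`: the largest height of a divisor of `X ^ n - 1` in `ℤ[X]`. -/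
noncomputable def B (n : ℕ) : ℕ := sSup (divisorHeights n)

open Pool.Agent.Lib.MP_b384de_nt in
theorem height_eq (f : ℤ[X]) : height f = Pool.Agent.Lib.MP_b384de_nt.height f := rfl

theorem exists_subset_of_dvd_prod {ι : Type*} [DecidableEq ι] (P : ι → ℤ[X]) (s : Finset ι)
    (hP : ∀ i ∈ s, Prime (P i)) :
    ∀ f : ℤ[X], f ∣ ∏ i ∈ s, P i → ∃ t ⊆ s, Associated f (∏ i ∈ t, P i) := by
  induction s using Finset.induction_on with
  | empty =>
    intro f hf
    rw [Finset.prod_empty] at hf
    exact ⟨∅, subset_rfl, by
      rw [Finset.prod_empty]; exact associated_one_iff_isUnit.mpr (isUnit_of_dvd_one hf)⟩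
  | insert a s ha ih =>
    intro f hf
    have hPa : Prime (P a) := hP a (Finset.mem_insert_self a s)
    have ih' := ih (fun i hi => hP i (Finset.mem_insert_of_mem hi))
    rw [Finset.prod_insert ha] at hf
    by_cases h : P a ∣ f
    · obtain ⟨f', rfl⟩ := h
      have h1 : f' ∣ ∏ i ∈ s, P i := (mul_dvd_mul_iff_left hPa.ne_zero).mp hf
      obtain ⟨t, hts, ht⟩ := ih' f' h1
      have hat : a ∉ t := fun hh => ha (hts hh)
      refine ⟨insert a t, Finset.insert_subset_insert a hts, ?_⟩
      rw [Finset.prod_insert hat]
      exact Associated.mul_left _ ht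
    · obtain ⟨c, hc⟩ := hf
      have h1 : P a ∣ f * c := ⟨_, hc.symm⟩
      rcases hPa.dvd_or_dvd h1 with h2 | ⟨c', rfl⟩
      · exact absurd h2 h
      · have h2 : f ∣ ∏ i ∈ s, P i := by
          refine ⟨c', ?_⟩
          refine mul_left_cancel₀ hPa.ne_zero ?_
          rw [hc]; ring
        obtain ⟨t, hts, ht⟩ := ih' f h2
        exact ⟨t, hts.trans (Finset.subset_insert a s), ht⟩

theorem height_of_associated {f g : ℤ[X]} (h : Associated f g) : height f = height g := by
  obtain ⟨u, rfl⟩ := h
  obtain ⟨c, hc, hcu⟩ := Polynomial.isUnit_iff.mp u.isUnit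
  rw [← hcu]
  rcases Int.isUnit_iff.mp hc with rfl | rfl
  · simp
  · rw [map_neg, map_one, mul_neg, mul_one]
    exact (Pool.Agent.Lib.MP_b384de_nt.height_neg f).symm

theorem main_isGreatest (p q b : ℕ) (hp : p.Prime) (hq : q.Prime) (hpq : p < q) (hb : 1 ≤ b) :
    ∃ M : ℕ, IsGreatest (divisorHeights (p * q ^ b)) (p * M) := by
  classical
  have hn : 0 < p * q ^ b := Nat.mul_pos hp.pos (pow_pos hq.pos b)
  set D := Nat.divisors (p * q ^ b) with hD
  have hprodD : ∏ d ∈ D, cyclotomic d ℤ = X ^ (p * q ^ b) - 1 :=
    prod_cyclotomic_eq_X_pow_sub_one hn ℤ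
  have hprime : ∀ d ∈ D, Prime (cyclotomic d ℤ) := fun d hd =>
    (cyclotomic.irreducible (Nat.pos_of_mem_divisors hd)).prime
  -- the part of level at least two
  let g : Finset ℕ → ℤ[X] := fun S => ∏ d ∈ S.filter (fun d => ¬ d ∣ p * q), cyclotomic (d / q) ℤ
  have hexp : ∀ S ⊆ D, ∏ d ∈ S.filter (fun d => ¬ d ∣ p * q), cyclotomic d ℤ
      = expand ℤ q (g S) := by
    intro S hS
    rw [map_prod]
    refine Finset.prod_congr rfl fun d hd => ?_
    rw [Finset.mem_filter] at hd
    have hdD : d ∣ p * q ^ b := Nat.dvd_of_mem_divisors (hS hd.1)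
    -- q ^ 2 divides d
    have hq2 : q ^ 2 ∣ d := by
      obtain ⟨d1, d2, h1, h2, rfl⟩ := exists_dvd_and_dvd_of_dvd_mul hdD
      obtain ⟨k, hk, rfl⟩ := (Nat.dvd_prime_pow hq).mp h2
      have hk2 : 2 ≤ k := by
        by_contra hcon
        push Not at hcon
        apply hd.2
        have : q ^ k ∣ q ^ 1 := pow_dvd_pow q (by omega)
        rw [pow_one] at this
        exact mul_dvd_mul h1 this
      exact (pow_dvd_pow q hk2).trans (dvd_mul_left _ _)
    obtain ⟨m, rfl⟩ := hq2
    have h3 : q ^ 2 * m / q = q * m := by
      rw [pow_two, mul_assoc, Nat.mul_div_cancel_left _ hq.pos]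
    rw [h3, cyclotomic_expand_eq_cyclotomic hq (dvd_mul_right q m) ℤ]
    congr 1
    ring
  have hsplit : ∀ S ⊆ D, ∏ d ∈ S, cyclotomic d ℤ
      = (∏ d ∈ S.filter (fun d => d ∣ p * q), cyclotomic d ℤ) * expand ℤ q (g S) := by
    intro S hS
    rw [← hexp S hS, Finset.prod_filter_mul_prod_filter_not]
  have hsub : ∀ S : Finset ℕ, S.filter (fun d => d ∣ p * q) ⊆ {1, p, q, p * q} := by
    intro S d hd
    rw [Finset.mem_filter] at hd
    obtain ⟨d1, d2, h1, h2, rfl⟩ := exists_dvd_and_dvd_of_dvd_mul hd.2
    rcases (Nat.dvd_prime hp).mp h1 with rfl | rfl <;>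
      rcases (Nat.dvd_prime hq).mp h2 with rfl | rfl <;> simp
  -- upper bound for every subset product
  have hupper : ∀ S ⊆ D, height (∏ d ∈ S, cyclotomic d ℤ) ≤ p * height (g S) := by
    intro S hS
    rw [hsplit S hS]
    exact Pool.Agent.Lib.MP_b384de_nt.height_mul_expand_le hq.pos
      (fun r => Pool.Agent.Lib.MP_b384de_nt.bd_u hp hq hpq _ (hsub S) r)
  -- choose the subset with the largest height of g
  obtain ⟨S₀, hS₀, hmax⟩ := Finset.exists_max_image D.powerset (fun S => height (g S))
    ⟨∅, Finset.empty_mem_powerset D⟩
  rw [Finset.mem_powerset] at hS₀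
  refine ⟨height (g S₀), ?_, ?_⟩
  · -- attained
    have hpD : p ∈ D := by
      rw [hD, Nat.mem_divisors]; exact ⟨dvd_mul_right _ _, hn.ne'⟩
    have hqD : q ∈ D := by
      rw [hD, Nat.mem_divisors]
      exact ⟨(dvd_pow_self q (by omega)).trans (dvd_mul_left _ _), hn.ne'⟩
    set S₁ := S₀.filter (fun d => ¬ d ∣ p * q) with hS₁
    have hpS : p ∉ S₁ := by
      rw [hS₁, Finset.mem_filter]; exact fun h => h.2 (dvd_mul_right p q)
    have hqS : q ∉ S₁ := by
      rw [hS₁, Finset.mem_filter]; exact fun h => h.2 (dvd_mul_left q p)
    have hT : insert p (insert q S₁) ⊆ D := by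
      intro d hd
      rw [Finset.mem_insert, Finset.mem_insert] at hd
      rcases hd with rfl | rfl | hd
      · exact hpD
      · exact hqD
      · exact hS₀ (Finset.mem_filter.mp hd).1
    have hfT : ∏ d ∈ insert p (insert q S₁), cyclotomic d ℤ
        = cyclotomic p ℤ * cyclotomic q ℤ * expand ℤ q (g S₀) := by
      rw [Finset.prod_insert, Finset.prod_insert hqS, hexp S₀ hS₀, mul_assoc]
      rw [Finset.mem_insert]
      rintro (h | h)
      · exact hpq.ne h
      · exact hpS h
    refine ⟨∏ d ∈ insert p (insert q S₁), cyclotomic d ℤ, ?_, ?_⟩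
    · rw [← hprodD]
      exact Finset.prod_dvd_prod_of_subset _ _ _ hT
    · refine le_antisymm ?_ ?_
      · -- this is at most p * height of its own g, which is g S₀
        have h1 := hupper _ hT
        refine h1.trans (Nat.mul_le_mul_left p ?_)
        exact hmax _ (Finset.mem_powerset.mpr hT)
      · rw [hfT]
        obtain ⟨k, hk⟩ := Pool.Agent.Lib.MP_b384de_nt.exists_coeff_eq_height (g S₀)
        have hpq1 : cyclotomic p ℤ * cyclotomic q ℤ
            = ∑ s ∈ range q ×ˢ range p, X ^ (s.1 + s.2) := by
          have := Fact.mk hp
          have := Fact.mk hq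
          rw [Finset.sum_product, cyclotomic_prime ℤ p, cyclotomic_prime ℤ q, mul_comm,
            Finset.sum_mul_sum]
          simp only [pow_add]
        -- coefficient of index k * q + (q - 1)
        have hcoef : (cyclotomic p ℤ * cyclotomic q ℤ * expand ℤ q (g S₀)).coeff (k * q + (q - 1))
            = p * (g S₀).coeff k := by
          have hpqc : ∀ n, (cyclotomic p ℤ * cyclotomic q ℤ).coeff n
              = (((range q ×ˢ range p).filter (fun s => n = s.1 + s.2)).card : ℤ) := by
            intro n
            rw [hpq1, finsetSum_coeff]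
            simp only [coeff_X_pow]
            rw [Finset.sum_ite, Finset.sum_const_zero, add_zero, Finset.sum_const, nsmul_eq_mul,
              mul_one]
          rw [coeff_mul, Finset.sum_eq_single (q - 1, k * q)]
          · have h1 : (expand ℤ q (g S₀)).coeff (k * q) = (g S₀).coeff k := by
              rw [coeff_expand hq.pos, if_pos (dvd_mul_left q k), Nat.mul_div_cancel _ hq.pos]
            have h2 : (cyclotomic p ℤ * cyclotomic q ℤ).coeff (q - 1) = p := by
              rw [hpqc]
              have h3 : ((range q ×ˢ range p).filter (fun s => q - 1 = s.1 + s.2))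
                  = (range p).image (fun j => (q - 1 - j, j)) := by
                ext ⟨i, j⟩
                simp only [Finset.mem_filter, Finset.mem_product, Finset.mem_range,
                  Finset.mem_image, Prod.mk.injEq]
                constructor
                · rintro ⟨⟨h4, h5⟩, h6⟩
                  exact ⟨j, h5, by omega, rfl⟩
                · rintro ⟨j', h4, h5, rfl⟩
                  omega
              rw [h3, Finset.card_image_of_injective, Finset.card_range]
              intro j j' h
              exact (Prod.mk.inj h).2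
            rw [h1, h2]
          · rintro ⟨i, j⟩ hij hne
            rw [Finset.HasAntidiagonal.mem_antidiagonal] at hij
            simp only at hij ⊢
            rw [coeff_expand hq.pos]
            split_ifs with hqj
            · obtain ⟨l, rfl⟩ := hqj
              -- j = q * l, i = k q + q - 1 - q l
              have h4 : (cyclotomic p ℤ * cyclotomic q ℤ).coeff i = 0 := by
                rw [hpqc]
                norm_cast
                rw [Finset.card_eq_zero, Finset.filter_eq_empty_iff]
                rintro ⟨s, t⟩ hst h5
                rw [Finset.mem_product, Finset.mem_range, Finset.mem_range] at hst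
                simp only at hst h5
                have hlk : l < k := by
                  by_contra hcon
                  push Not at hcon
                  rcases Nat.lt_or_ge k l with h6 | h6
                  · have : q * (k + 1) ≤ q * l := Nat.mul_le_mul_left q h6
                    have h7 : k * q = q * k := Nat.mul_comm k q
                    have h8 : q * (k + 1) = q * k + q := by ring
                    omega
                  · have h7 : l = k := le_antisymm h6 hcon
                    subst h7
                    apply hne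
                    have h8 : l * q = q * l := Nat.mul_comm l q
                    ext
                    · simp only; omega
                    · simp only; omega
                have : q * (l + 1) ≤ q * k := Nat.mul_le_mul_left q hlk
                have h7 : k * q = q * k := Nat.mul_comm k q
                have h8 : q * (l + 1) = q * l + q := by ring
                omega
              rw [h4, zero_mul]
            · rw [mul_zero]
          · intro h
            exfalso
            apply h
            rw [Finset.HasAntidiagonal.mem_antidiagonal]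
            simp only
            omega
        have h5 := Pool.Agent.Lib.MP_b384de_nt.natAbs_coeff_le_height
          (cyclotomic p ℤ * cyclotomic q ℤ * expand ℤ q (g S₀)) (k * q + (q - 1))
        rw [hcoef, Int.natAbs_mul, Int.natAbs_natCast, hk] at h5
        exact h5
  · -- upper bound
    rintro h ⟨f, hf, rfl⟩
    rw [← hprodD] at hf
    obtain ⟨t, htD, ht⟩ := exists_subset_of_dvd_prod (fun d => cyclotomic d ℤ) D hprime f hf
    rw [height_of_associated ht]
    refine (hupper t htD).trans (Nat.mul_le_mul_left p ?_)
    exact hmax t (Finset.mem_powerset.mpr htD)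

/-- For primes `p < q` and every `b ≥ 1`, the set of heights of the divisors of
`X ^ (p * q ^ b) - 1` has the maximum `B (p * q ^ b)`, and this maximum is divisible by `p`. -/
theorem result : ∀ p q b : ℕ, p.Prime → q.Prime → p < q → 1 ≤ b →
    IsGreatest (divisorHeights (p * q ^ b)) (B (p * q ^ b)) ∧ p ∣ B (p * q ^ b) := by
  intro p q b hp hq hpq hb
  obtain ⟨M, hM⟩ := main_isGreatest p q b hp hq hpq hb
  have h : B (p * q ^ b) = p * M := hM.csSup_eq
  rw [h]
  exact ⟨hM, dvd_mul_right p M⟩

end Pool.Agent.Results.MP_b384de_nt.Full
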